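import Mathlib
import Pool.Agent.Lib.helper22.ZScott

set_option autoImplicit false

namespace Pool.Agent.Results.MP_43be50_gt.Example

open Set Filter Topology TopologicalSpace H22ZS

section Defs

variable (Y Z : Type) [TopologicalSpace Y] [TopologicalSpace Z]

/-- The topology on `C(Y,Z)` with subbasis the sets `(K,U)`, `K` in a given class, `U` open. -/
@[reducible] def kOf (P : Set Y → Prop) : TopologicalSpace C(Y, Z) :=
  generateFrom {S | ∃ (K : Set Y) (U : Set Z), P K ∧ IsOpen U ∧ S = {f : C(Y, Z) | f '' K ⊆ U}}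

/-- `t_co`. -/
@[reducible] def tco : TopologicalSpace C(Y, Z) := kOf Y Z fun K => IsCompact K

/-- `t_co^Z`. -/
@[reducible] def tcoZ : TopologicalSpace C(Y, Z) :=
  kOf Y Z fun K => @IsCompact Y (generateFrom (OZ Y Z)) K

/-- Scott open families of open sets. -/
def ScottO (H : Set (Set Y)) : Prop :=
  (∀ W ∈ H, IsOpen W) ∧ (∀ W ∈ H, ∀ V : Set Y, IsOpen V → W ⊆ V → V ∈ H) ∧
    ∀ F : Set (Set Y), (∀ W ∈ F, IsOpen W) → ⋃₀ F ∈ H → ∃ G ⊆ F, G.Finite ∧ ⋃₀ G ∈ H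

/-- Strong Scott open families of open sets. -/
def SScottO (H : Set (Set Y)) : Prop :=
  (∀ W ∈ H, IsOpen W) ∧ (∀ W ∈ H, ∀ V : Set Y, IsOpen V → W ⊆ V → V ∈ H) ∧
    ∀ F : Set (Set Y), (∀ W ∈ F, IsOpen W) → ⋃₀ F = univ → ∃ G ⊆ F, G.Finite ∧ ⋃₀ G ∈ H

/-- `H` is open in `τ_{1,s}^Z`. -/
def Tau1s (H : Set (Set Y)) : Prop :=
  (∀ W ∈ H, IsOpen W) ∧ (∀ W ∈ H, W ∈ OZ Y Z → ∀ V : Set Y, IsOpen V → W ⊆ V → V ∈ H) ∧
    ∀ F : Set (Set Y), F ⊆ OZ Y Z → ⋃₀ F = univ → ∃ G ⊆ F, G.Finite ∧ ⋃₀ G ∈ H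

end Defs

/-- index set: infinite sets outside the ultrafilter. -/
def Idx : Type := {A : Set ℕ // A.Infinite ∧ A ∉ hyperfilter ℕ}

def Y : Type := ℕ ⊕ Idx

def l (n : ℕ) : Y := Sum.inl n
def r (A : Idx) : Y := Sum.inr A

theorem l_ne_r (n : ℕ) (A : Idx) : l n ≠ r A := Sum.inl_ne_inr
theorem l_inj {m n : ℕ} (h : l m = l n) : m = n := Sum.inl.inj h
theorem r_inj {A B : Idx} (h : r A = r B) : A = B := Sum.inr.inj h
theorem casesY (x : Y) : (∃ n, x = l n) ∨ ∃ A, x = r A := by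
  rcases x with n | n
  · exact Or.inl ⟨n, rfl⟩
  · exact Or.inr ⟨n, rfl⟩

instance : TopologicalSpace Y where
  IsOpen U := ∀ A : Idx, r A ∈ U → ∀ᶠ n in cofinite, n ∈ A.1 → l n ∈ U
  isOpen_univ := fun _ _ => Eventually.of_forall fun _ _ => mem_univ _
  isOpen_inter := fun U V hU hV A h =>
    ((hU A h.1).and (hV A h.2)).mono fun _ hn hA => ⟨hn.1 hA, hn.2 hA⟩
  isOpen_sUnion := by
    rintro S hS A ⟨U, hU, h⟩
    exact (hS U hU A h).mono fun n hn hA => ⟨U, hU, hn hA⟩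

theorem half {B : Set ℕ} (hB : B.Infinite) : ∃ A ⊆ B, A.Infinite ∧ A ∉ hyperfilter ℕ := by
  let e := hB.natEmbedding
  have hi : ∀ i : ℕ, (range fun k => (e (2 * k + i)).1).Infinite := fun i =>
    infinite_range_of_injective fun a b hab => by
      have := e.injective (Subtype.ext hab)
      omega
  have hs : ∀ i : ℕ, (range fun k => (e (2 * k + i)).1) ⊆ B := by
    rintro i _ ⟨k, rfl⟩
    exact (e _).2
  by_contra hcon
  push Not at hcon
  obtain ⟨n, ⟨a, ha⟩, ⟨b, hb⟩⟩ := (hyperfilter ℕ).nonempty_of_mem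
    (inter_mem (hcon _ (hs 0) (hi 0)) (hcon _ (hs 1) (hi 1)))
  have := e.injective (Subtype.ext (ha.trans hb.symm))
  omega

theorem cofin_of_clopen {W : Set Y} (hW : IsClopen W) {A : Idx} (hA : r A ∈ W) : Wᶜ.Finite := by
  have h1 : {n | l n ∈ W}.Infinite := by
    intro hf
    apply A.2.1
    refine (hf.union (hW.isOpen A hA)).subset fun n hn => ?_
    by_cases h : l n ∈ W
    · exact Or.inl h
    · exact Or.inr fun h' => h (h' hn)
  have h2 : {n | l n ∉ W}.Finite := by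
    by_contra h2
    obtain ⟨A1, s1, i1, u1⟩ := half h1
    obtain ⟨A2, s2, i2, u2⟩ := half h2
    let C : Idx := ⟨A1 ∪ A2, i1.mono subset_union_left, fun h =>
      (Ultrafilter.union_mem_iff.1 h).elim u1 u2⟩
    by_cases hC : r C ∈ W
    · exact i2 ((hW.isOpen C hC).subset fun n hn h' => s2 hn (h' (Or.inr hn)))
    · exact i1 ((hW.compl.isOpen C hC).subset fun n hn h' => h' (Or.inl hn) (s1 hn))
  refine (h2.image l).subset fun x hx => ?_
  rcases casesY x with ⟨n, rfl⟩ | ⟨B, rfl⟩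
  · exact ⟨n, hx, rfl⟩
  · exfalso
    apply B.2.1
    refine (h2.union (hW.compl.isOpen B hx)).subset fun n hn => ?_
    by_cases h : l n ∈ W
    · exact Or.inr fun h' => h' hn h
    · exact Or.inl h

theorem exA : ∃ _ : Idx, True := by
  obtain ⟨A, -, h1, h2⟩ := half (infinite_univ (α := ℕ))
  exact ⟨⟨A, h1, h2⟩, trivial⟩

theorem fin_cover {F : Set (Set Y)} {A : Idx} (hF : ∀ W ∈ F, r A ∈ W → Wᶜ.Finite)
    (hU : ⋃₀ F = univ) : ∃ G ⊆ F, G.Finite ∧ ⋃₀ G = univ := by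
  have hc : ∀ x : Y, ∃ W ∈ F, x ∈ W := fun x => (hU ▸ mem_univ x : x ∈ ⋃₀ F)
  choose S hS hx using hc
  refine ⟨insert (S (r A)) (S '' (S (r A))ᶜ), ?_, ((hF _ (hS _) (hx _)).image S).insert _, ?_⟩
  · rintro _ (rfl | ⟨x, -, rfl⟩) <;> exact hS _
  · rw [eq_univ_iff_forall]
    intro x
    by_cases h : x ∈ S (r A)
    · exact ⟨_, Or.inl rfl, h⟩
    · exact ⟨_, Or.inr ⟨x, h, rfl⟩, hx x⟩

theorem zcover {F : Set (Set Y)} (hF : F ⊆ OZ Y Bool) (hU : ⋃₀ F = univ) :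
    ∃ G ⊆ F, G.Finite ∧ ⋃₀ G ∈ ({univ} : Set (Set Y)) := by
  obtain ⟨A, -⟩ := exA
  exact fin_cover (A := A) (fun W hW h => cofin_of_clopen (mem_OZ_bool.1 (hF hW)) h) hU

theorem zcompact : @IsCompact Y (generateFrom (OZ Y Bool)) univ := by
  obtain ⟨A, -⟩ := exA
  have key : ∀ W, GenerateOpen (OZ Y Bool) W → r A ∈ W → Wᶜ.Finite := by
    intro W hW
    induction hW with
    | basic s hs => exact cofin_of_clopen (mem_OZ_bool.1 hs)
    | univ => simp
    | inter s t _ _ h1 h2 =>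
      intro h
      rw [compl_inter]
      exact (h1 h.1).union (h2 h.2)
    | sUnion S _ h1 =>
      rintro ⟨s, hs, h⟩
      exact (h1 s hs h).subset (compl_subset_compl.2 (subset_sUnion_of_mem hs))
  refine @isCompact_of_finite_subcover Y (generateFrom (OZ Y Bool)) univ ?_
  intro ι U hU hcov
  have hc : ∀ x : Y, ∃ i, x ∈ U i := fun x => mem_iUnion.1 (hcov (mem_univ x))
  choose i hi using hc
  classical
  refine ⟨insert (i (r A)) ((key _ (hU _) (hi (r A))).toFinset.image i), fun x _ => ?_⟩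
  simp only [mem_iUnion]
  by_cases h : x ∈ U (i (r A))
  · exact ⟨_, Finset.mem_insert_self _ _, h⟩
  · exact ⟨i x, Finset.mem_insert_of_mem (Finset.mem_image_of_mem _ (by simpa using h)), hi x⟩

theorem clopen_l (n : ℕ) : IsClopen ({l n} : Set Y) := by
  refine ⟨⟨fun A _ => ?_⟩, fun A h => absurd (mem_singleton_iff.1 h).symm (l_ne_r _ _)⟩
  exact (finite_singleton n).eventually_cofinite_notMem.mono fun m hm _ h => hm (l_inj h)

noncomputable def f (n : ℕ) : C(Y, Bool) :=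
  ⟨({l n}ᶜ : Set Y).boolIndicator, (continuous_boolIndicator_iff_isClopen _).2 (clopen_l n).compl⟩

theorem f_true {n : ℕ} {x : Y} (hx : x ≠ l n) : f n x = true :=
  (Set.mem_iff_boolIndicator ({l n}ᶜ : Set Y) x).1 hx

theorem f_false (n : ℕ) : f n (l n) = false :=
  (Set.notMem_iff_boolIndicator ({l n}ᶜ : Set Y) _).1 (fun h => h rfl)

def one : C(Y, Bool) := ContinuousMap.const Y true

/-- the basic small open cover. -/
def Sm : Set (Set Y) := {W | IsOpen W ∧ {n | l n ∈ W} ∉ hyperfilter ℕ}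

theorem Sm_cover : ⋃₀ Sm = univ := by
  rw [eq_univ_iff_forall]
  intro x
  rcases casesY x with ⟨n, rfl⟩ | ⟨A, rfl⟩
  · refine ⟨{l n}, ⟨(clopen_l n).isOpen, ?_⟩, rfl⟩
    exact notMem_hyperfilter_of_finite ((finite_singleton n).subset fun m hm => l_inj hm)
  · refine ⟨insert (r A) (l '' A.1), ⟨?_, fun h => A.2.2 (mem_of_superset h ?_)⟩, Or.inl rfl⟩
    · rintro B (hB | ⟨n, -, hB⟩)
      · rw [r_inj hB]
        exact Eventually.of_forall fun n hn => Or.inr ⟨n, hn, rfl⟩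
      · exact absurd hB (l_ne_r _ _)
    · rintro n (hn | ⟨m, hm, hn⟩)
      · exact absurd hn (l_ne_r _ _)
      · rwa [← l_inj hn]

theorem Sm_fin {G : Set (Set Y)} (hG : G ⊆ Sm) (hf : G.Finite) :
    ∀ᶠ n in (hyperfilter ℕ : Filter ℕ), l n ∉ ⋃₀ G := by
  have : ∀ᶠ n in (hyperfilter ℕ : Filter ℕ), ∀ W ∈ G, l n ∉ W :=
    (eventually_all_finite hf).2 fun W hW => Ultrafilter.compl_mem_iff_notMem.2 (hG hW).2
  exact this.mono fun n hn ⟨W, hW, h⟩ => hn W hW h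

theorem tend_k : Tendsto f (hyperfilter ℕ) (@nhds _ (tco Y Bool) one) := by
  rw [tendsto_nhds_generateFrom_iff]
  rintro _ ⟨K, U, hK, -, rfl⟩ h1
  obtain ⟨G, hG, hGf, hKG⟩ := hK.elim_finite_subcover_image (b := Sm) (c := id)
    (fun W hW => hW.1) (fun x _ => by
      obtain ⟨W, hW, hx⟩ : x ∈ ⋃₀ Sm := Sm_cover ▸ mem_univ x
      exact mem_biUnion hW hx)
  filter_upwards [Sm_fin hG hGf] with n hn
  rintro _ ⟨x, hx, rfl⟩
  rw [f_true]
  · exact h1 ⟨x, hx, rfl⟩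
  · rintro rfl
    apply hn
    rw [sUnion_eq_biUnion]
    exact hKG hx

theorem tend_H {P : Set (Set Y) → Prop}
    (hP : ∀ H, P H → (∀ W ∈ H, ∀ V : Set Y, IsOpen V → W ⊆ V → V ∈ H) ∧
      (univ ∈ H → ∃ G ⊆ Sm, G.Finite ∧ ⋃₀ G ∈ H)) :
    Tendsto f (hyperfilter ℕ) (@nhds _ (tOf Y Bool P) one) := by
  rw [tendsto_nhds_generateFrom_iff]
  rintro _ ⟨H, U, hH, -, rfl⟩ h1
  change one ⁻¹' U ∈ H at h1
  obtain ⟨h2, h3⟩ := hP H hH
  have hop : ∀ n, IsOpen (f n ⁻¹' U) := fun n => (isOpen_discrete U).preimage (f n).continuous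
  by_cases ht : true ∈ U
  · obtain ⟨G, hG, hGf, hGH⟩ := h3 (h2 _ h1 _ isOpen_univ (subset_univ _))
    filter_upwards [Sm_fin hG hGf] with n hn
    refine h2 _ hGH _ (hop n) fun x hx => ?_
    show f n x ∈ U
    rw [f_true]
    · exact ht
    · rintro rfl
      exact hn hx
  · exact Eventually.of_forall fun n => h2 _ h1 _ (hop n) fun x hx => absurd hx ht

theorem ne_of {s t : TopologicalSpace C(Y, Bool)} {O : Set C(Y, Bool)} (hO : IsOpen[s] O)
    (h1 : one ∈ O) (h2 : ∀ n, f n ∉ O) (ht : Tendsto f (hyperfilter ℕ) (@nhds _ t one)) :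
    s ≠ t := by
  rintro rfl
  obtain ⟨n, hn⟩ := (ht.eventually (@IsOpen.mem_nhds _ s _ _ hO h1)).exists
  exact h2 n hn

theorem ne_H {P : Set (Set Y) → Prop} (hP : P {univ}) {t : TopologicalSpace C(Y, Bool)}
    (ht : Tendsto f (hyperfilter ℕ) (@nhds _ t one)) : tOf Y Bool P ≠ t := by
  refine ne_of (O := {g : C(Y, Bool) | g ⁻¹' {true} ∈ ({univ} : Set (Set Y))})
    (isOpen_generateFrom_of_mem ⟨{univ}, {true}, hP, isOpen_discrete _, rfl⟩) ?_ ?_ ht
  · exact eq_univ_of_forall fun x => rfl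
  · intro n hn
    have : f n (l n) = true := (eq_univ_iff_forall.1 hn (l n))
    rw [f_false] at this
    exact Bool.false_ne_true this

theorem result : ∃ (Y Z : Type) (_ : TopologicalSpace Y) (_ : TopologicalSpace Z),
    tcoZ Y Z ≠ tco Y Z ∧ tOf Y Z (Tau1 Y Z) ≠ tOf Y Z (ScottO Y) ∧
      tOf Y Z (Tau1s Y Z) ≠ tOf Y Z (SScottO Y) := by
  have a1 : ∀ W ∈ ({univ} : Set (Set Y)), IsOpen W := by
    rintro _ rfl
    exact isOpen_univ
  have a2 : ∀ W ∈ ({univ} : Set (Set Y)), W ∈ OZ Y Bool → ∀ V : Set Y, IsOpen V → W ⊆ V →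
      V ∈ ({univ} : Set (Set Y)) := by
    rintro _ rfl - V - hV
    exact univ_subset_iff.1 hV
  refine ⟨Y, Bool, inferInstance, inferInstance, ?_, ?_, ?_⟩
  · refine ne_of (O := {g : C(Y, Bool) | g '' univ ⊆ {true}})
      (isOpen_generateFrom_of_mem ⟨univ, {true}, zcompact, isOpen_discrete _, rfl⟩) ?_ ?_ tend_k
    · rintro _ ⟨x, -, rfl⟩
      rfl
    · intro n hn
      have : f n (l n) = true := hn ⟨l n, mem_univ _, rfl⟩
      rw [f_false] at this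
      exact Bool.false_ne_true this
  · exact ne_H ⟨a1, a2, fun F hF hU => zcover hF hU⟩ (tend_H fun H hH =>
      ⟨hH.2.1, fun h => hH.2.2 Sm (fun W hW => hW.1) (Sm_cover ▸ h)⟩)
  · exact ne_H ⟨a1, a2, fun F hF hU => zcover hF hU⟩ (tend_H fun H hH =>
      ⟨hH.2.1, fun _ => hH.2.2 Sm (fun W hW => hW.1) Sm_cover⟩)

end Pool.Agent.Results.MP_43be50_gt.Example
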